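import Pool.Agent.WTT.Slopes
import Pool.Agent.WTT.CardCover

/-!
Planar surfaces against one or two essential surface systems without long product discs.
-/

namespace Pool.Agent.Helper24.JOINCUT.EssentialSurfaces

open Pool.Agent.WTT

universe u v₁ v₂ w

theorem full {G : Type u} [Group G] (μ lam : G) (r e : ℤ) (m : ℕ) (hm : 2 ≤ m)
    (ρ : FreeGroup (Fin m) →* G) (hρ : PlanarMap (μ ^ r * lam ^ e) m ρ) :
    -- one surface system
    (∀ (V : Type v₁) [MulAction G V] (T : SimpleGraph V) (L : ℤ → V) (p b : ℤ) (q f : ℕ),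
      SurfaceSystem T L μ lam p b q f →
      (p * e - r * b).natAbs * q ≤ cap G L (m + 1) * f) ∧
    -- two surface systems
    (∀ (V₁ : Type v₁) (V₂ : Type v₂) [MulAction G V₁] [MulAction G V₂]
      (T₁ : SimpleGraph V₁) (L₁ : ℤ → V₁) (T₂ : SimpleGraph V₂) (L₂ : ℤ → V₂)
      (p₁ b₁ p₂ b₂ : ℤ) (q₁ f₁ q₂ f₂ : ℕ),
      SurfaceSystem T₁ L₁ μ lam p₁ b₁ q₁ f₁ → SurfaceSystem T₂ L₂ μ lam p₂ b₂ q₂ f₂ →
      e.natAbs * (p₁ * b₂ - p₂ * b₁).natAbs * (q₁ * q₂) ≤
        b₂.natAbs * q₂ * (cap G L₁ (m + 1) * f₁) + b₁.natAbs * q₁ * (cap G L₂ (m + 1) * f₂)) ∧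
    -- homology of the cyclic covers
    (Commute μ lam → lam ∈ derivedSeries G 2 → orderOf (Abelianization.of μ) = 0 →
      (∀ x : Abelianization G, x ∈ Subgroup.zpowers (Abelianization.of μ)) →
      ∀ (k : ℕ) (B' : Type w) [Group B'], 2 ≤ k →
      Nonempty (G ⧸ Subgroup.normalClosure {μ ^ r * lam ^ e} ≃*
        Monoid.Coprod (Multiplicative (ZMod k)) B') →
      ∃ b : ℕ, 1 ≤ b ∧ r.natAbs = k * b ∧ ∀ p : ℕ, p.Prime → p ∣ k →
        ∀ N : Subgroup G, N.Normal → N.index = p → ∀ h : μ ^ p ∈ N,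
          Nat.card (Abelianization N ⧸
            Subgroup.zpowers (Abelianization.of (⟨μ ^ p, h⟩ : N))) = b ^ (p - 1)) := by
  refine ⟨?_, ?_, ?_⟩
  · intro V _ T L p b q f h
    exact one_slope41 h r e m hm ρ hρ
  · intro V₁ V₂ _ _ T₁ L₁ T₂ L₂ p₁ b₁ p₂ b₂ q₁ f₁ q₂ f₂ h₁ h₂
    exact two_slopes41 h₁ h₂ r e m hm ρ hρ
  · rintro hcomm hc2 hinf hgen k B' _ hk ⟨iso⟩
    have hcN : ∀ N : Subgroup G, commutator G ≤ N → ∀ h : lam ∈ N,
        (⟨lam, h⟩ : N) ∈ commutator N := by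
      intro N hN h
      have h1 : derivedSeries G 2 ≤ ⁅N, N⁆ := by
        rw [derivedSeries_succ, derivedSeries_one]
        exact Subgroup.commutator_mono hN hN
      have h2 : (commutator N).map N.subtype = ⁅N, N⁆ := by
        rw [commutator_def, Subgroup.map_commutator, ← MonoidHom.range_eq_map,
          Subgroup.range_subtype]
      have h3 := h1 hc2
      rw [← h2] at h3
      obtain ⟨x, hx, hxc⟩ := h3
      have : x = ⟨lam, h⟩ := Subtype.ext hxc
      rwa [this] at hx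
    have hcG : lam ∈ commutator G := by
      have := derivedSeries_antitone G (by norm_num : 1 ≤ 2) hc2
      rwa [derivedSeries_one] at this
    by_cases ha : r = 0
    · exact (no_cyclic_summand_zero hgen hinf hcG ha hk iso).elim
    · exact card_cover hcomm hgen hinf hcN ha hk iso

end Pool.Agent.Helper24.JOINCUT.EssentialSurfaces
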